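import Mathlib

set_option autoImplicit false

namespace Pool.Agent.Results.MP_140fc6_an.Iff

variable (X : Type*) [NormedAddCommGroup X] [NormedSpace ℝ X]

/-- weakly octahedral -/
def WOH : Prop := ∀ (E : Submodule ℝ X), FiniteDimensional ℝ E → ∀ f : StrongDual ℝ X, ‖f‖ ≤ 1 → ∀ ε : ℝ, 0 < ε →
  ∃ y : X, ‖y‖ = 1 ∧ ∀ x ∈ E, (1 - ε) * (|f x| + ‖y‖) ≤ ‖x + y‖

/-- property (P) -/
def PropP : Prop := ∀ ε : ℝ, 0 < ε → ∀ n : ℕ, 1 ≤ n → ∀ x : Fin n → X, (∀ i, ‖x i‖ = 1) →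
  ∀ f : StrongDual ℝ X, ‖f‖ ≤ 1 → ∃ y : X, ‖y‖ = 1 ∧ ∀ i, (1 - ε) * (|f (x i)| + 1) ≤ ‖x i + y‖

variable {X}

lemma key {u v y : X} {s c δ : ℝ} (hu : ‖u‖ = 1) (hy : ‖y‖ = 1) (s0 : 0 < s) (hs : s * (‖v‖ + 1) ≤ 1)
    (c1 : c ≤ ‖u + s • v‖) (d0 : 0 ≤ δ)
    (h : (1 - δ) * (‖u + s • v‖⁻¹ * c + 1) ≤ ‖‖u + s • v‖⁻¹ • (u + s • v) + y‖) :
    c - 1 + s - 4 * δ ≤ s * ‖v + y‖ := by
  have a : ‖u + s • v‖ ≤ 1 + s * ‖v‖ := by simpa [hu, norm_smul, abs_of_pos s0] using norm_add_le u (s • v)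
  have b : 1 ≤ ‖u + s • v‖ + s * ‖v‖ := by
    simpa [hu, norm_smul, abs_of_pos s0] using norm_sub_le (u + s • v) (s • v)
  set N := ‖u + s • v‖
  have sN : s ≤ N := by linarith
  have N0 : 0 < N := s0.trans_le sN
  have e : N • (N⁻¹ • (u + s • v) + y) = u + s • (v + y) + (N - s) • y := by
    rw [smul_add, smul_inv_smul₀ N0.ne']; module
  have := norm_add₃_le (a := u) (b := s • (v + y)) (c := (N - s) • y)
  rw [← e, norm_smul, norm_smul, norm_smul, hu, hy, Real.norm_of_nonneg N0.le, Real.norm_of_nonneg s0.le,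
    Real.norm_of_nonneg (sub_nonneg.2 sN)] at this
  have := mul_le_mul_of_nonneg_left h N0.le
  rw [mul_left_comm, mul_add, mul_inv_cancel_left₀ N0.ne'] at this
  nlinarith

theorem result (X : Type*) [NormedAddCommGroup X] [NormedSpace ℝ X] [CompleteSpace X] [Nontrivial X] :
    WOH X ↔ PropP X := by
  refine ⟨fun h ε e n _ x hx f hf => ?_, fun h E _ f hf ε e => ?_⟩
  · obtain ⟨y, hy, H⟩ := h (Submodule.span ℝ (Set.range x)) (.span_of_finite _ (Set.finite_range x)) f hf ε e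
    exact ⟨y, hy, fun i => hy ▸ H _ (Submodule.subset_span ⟨i, rfl⟩)⟩
  obtain ⟨y0, hy0⟩ := exists_norm_eq X zero_le_one
  obtain ⟨g, hg, fg⟩ : ∃ g : StrongDual ℝ X, ‖g‖ = 1 ∧ ∀ x, |f x| ≤ |g x| := by
    by_cases f0 : f = 0
    · obtain ⟨g, hg, -⟩ := exists_dual_vector ℝ y0 (by simp [hy0])
      exact ⟨g, hg, by simp [f0]⟩
    · have := norm_pos_iff.2 f0
      refine ⟨‖f‖⁻¹ • f, norm_smul_inv_norm f0, fun x => ?_⟩
      rw [smul_apply, smul_eq_mul, abs_mul, abs_of_pos (inv_pos.2 this)]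
      exact le_mul_of_one_le_left (abs_nonneg _) ((one_le_inv₀ this).2 hf)
  have gl : ∀ x, |g x| ≤ ‖x‖ := fun x => by simpa [hg] using g.le_opNorm x
  let s := (2 / ε + 1)⁻¹
  have s0 : 0 < s := by positivity
  obtain ⟨u', u1, hu'⟩ := g.exists_lt_apply_of_lt_opNorm (r := 1 - s * ε / 8) (by rw [hg]; nlinarith)
  obtain ⟨u, hu, gu⟩ : ∃ u : X, ‖u‖ = 1 ∧ 1 - s * ε / 8 ≤ g u := by
    by_cases u0 : u' = 0
    · obtain ⟨σ, h1, h2⟩ : ∃ σ : ℝ, |σ| = 1 ∧ 0 ≤ σ * g y0 := by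
        rcases le_total 0 (g y0) with c | c
        exacts [⟨1, by simp, by simpa⟩, ⟨-1, by simp, by simpa⟩]
      exact ⟨σ • y0, by simp [norm_smul, h1, hy0], by simp [u0] at hu' ⊢; linarith⟩
    · have p := norm_pos_iff.2 u0
      have q : |g u'| ≤ ‖u'‖⁻¹ * |g u'| := le_mul_of_one_le_left (abs_nonneg _) ((one_le_inv₀ p).2 u1.le)
      rcases le_total 0 (g u') with c | c
      · exact ⟨‖u'‖⁻¹ • u', norm_smul_inv_norm u0, by simp [abs_of_nonneg c] at hu' q ⊢; linarith⟩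
      · exact ⟨-(‖u'‖⁻¹ • u'), (norm_neg _).trans (norm_smul_inv_norm u0), by
          simp [abs_of_nonpos c] at hu' q ⊢; linarith⟩
  obtain ⟨t, ht, tf, cov⟩ := (isCompact_closedBall (0 : E) (2 / ε)).finite_cover_balls (e := ε / 8) (by positivity)
  have := tf.fintype
  obtain ⟨n, ⟨φ⟩⟩ := Finite.exists_equiv_fin (t × Bool)
  let p : t × Bool → X := fun z => (if z.2 then u else -u) + s • (z.1.1 : X)
  have hs : ∀ v : t, s * (‖(v.1 : X)‖ + 1) ≤ 1 := fun v =>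
    (inv_mul_le_one₀ (by positivity)).2 (by simpa using ht v.2)
  have p0 : ∀ z, p z ≠ 0 := fun z c => by
    have := congrArg norm (eq_neg_of_add_eq_zero_left c)
    rw [norm_neg, norm_smul, Real.norm_of_nonneg s0.le, show ‖ite _ _ _‖ = 1 by split_ifs <;> simpa] at this
    linarith [hs z.1]
  obtain ⟨y, hy, H⟩ := h (s * ε / 16) (by positivity) n (by
    obtain ⟨v, hv, -⟩ := Set.mem_iUnion₂.1 (cov (Metric.mem_closedBall_self (by positivity)))
    exact (φ (⟨v, hv⟩, true)).pos) (fun i => ‖p (φ.symm i)‖⁻¹ • p (φ.symm i))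
    (fun i => norm_smul_inv_norm (p0 _)) g hg.le
  have K : ∀ v : t, |g v.1| + 1 - ε / 2 ≤ ‖(v.1 : X) + y‖ := fun v => by
    have A : ∀ b, |g (p (v, b))| - 1 + s - 4 * (s * ε / 16) ≤ s * ‖(v.1 : X) + y‖ := fun b =>
      key (by split_ifs <;> simpa) hy s0 (hs v) (gl _) (by positivity) (by
        simpa only [Equiv.symm_apply_apply, map_smul, smul_eq_mul, abs_mul, abs_inv, abs_norm] using H (φ (v, b)))
    have a := (sub_le_sub_right (add_le_add_left (sub_le_sub_right (le_abs_self _) _) _) _).trans (A true)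
    have b := (sub_le_sub_right (add_le_add_left (sub_le_sub_right (neg_le_abs _) _) _) _).trans (A false)
    simp only [p, if_true, Bool.false_eq_true, if_false, map_add, map_smul, map_neg, smul_eq_mul] at a b
    refine le_of_mul_le_mul_left ?_ s0
    rcases abs_cases (g v.1) with c | c <;> rw [c.1] <;> nlinarith
  refine ⟨y, hy, fun x hx => ?_⟩
  have := fg x
  have := gl x
  have := abs_nonneg (f x)
  rw [hy]
  by_cases e1 : 1 ≤ ε
  · exact (mul_nonpos_of_nonpos_of_nonneg (by linarith) (by linarith)).trans (norm_nonneg _)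
  by_cases c : ‖x‖ ≤ 2 / ε
  · obtain ⟨v, hv, b⟩ := Set.mem_iUnion₂.1 (cov (show (⟨x, hx⟩ : E) ∈ _ by simpa using c))
    have b : ‖x - v‖ < ε / 8 := by simpa [dist_eq_norm] using b
    have k := K ⟨v, hv⟩
    have := gl (x - v)
    have := abs_sub_abs_le_abs_sub (g x) (g v)
    have := norm_sub_norm_le ((v : X) + y) (x + y)
    rw [add_sub_add_right_eq_sub, norm_sub_rev] at this
    rw [map_sub] at *
    nlinarith
  · have := norm_sub_norm_le x (-y)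
    rw [sub_neg_eq_add, norm_neg, hy] at this
    rw [not_le, div_lt_iff₀ e] at c
    nlinarith

end Pool.Agent.Results.MP_140fc6_an.Iff
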